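import Mathlib
import Pool.Agent.Helper37.BenzDefs
import Pool.Agent.Helper37.BenzMain

set_option autoImplicit false

namespace Pool.Agent.Results.MP_64a46a_co.RingBondOrderThree

open Pool.Agent.Helper37.Benz

/-- There is a benzenoid system with 67 hexagons, having a Kekule structure, in which some hexagon
has ring bond order exactly 3. -/
theorem result : ∃ F : Finset (ℤ × ℤ), IsBenzenoid F ∧ F.card = 67 ∧ (kekule F).Nonempty ∧
    ∃ h ∈ F, RBO F h = 3 :=
  ⟨FF, isBenzenoid, card_FF, ⟨MM, MM_mem⟩, (0, 0), (mem_FF _).2 chk_len.2.2.2.2.2.2.2.2, RBO_eq⟩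

end Pool.Agent.Results.MP_64a46a_co.RingBondOrderThree
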